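import Pool.Agent.Lib.MP_7b7e48_nt.RG.RX

/-!
# MP_61161c: small multiples of EVERY large integer as sums of two coprime integers with a bounded number of
prime factors, with prescribed parities

Unconditional. The parity of the number of prime factors of both summands is prescribed.
-/

namespace Pool.Agent.Results.MP_61161c_nt.BoundedOmegaMultiples

open ArithmeticFunction (cardFactors)

/-- `k ≤ (log N)^C` and `k N = a + b` with coprime `a, b > 1`, all of whose prime factors are `> (log N)^A`, with at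
most `C` prime factors each (counted with multiplicity), of the parities of `i` and `j` -/
def Rep (A C N i j k : ℕ) : Prop := 0 < k ∧ (k : ℝ) ≤ (Real.log N) ^ C ∧
  ∃ a b : ℕ, 1 < a ∧ 1 < b ∧ a.Coprime b ∧ a + b = k * N ∧
    (∀ p : ℕ, p.Prime → p ∣ a * b → (Real.log N) ^ A < p) ∧
    cardFactors a ≤ C ∧ cardFactors b ≤ C ∧ cardFactors a % 2 = i % 2 ∧ cardFactors b % 2 = j % 2

theorem result : ∀ A : ℕ, ∃ C N₀ : ℕ, ∀ N : ℕ, N₀ ≤ N → ∀ i j : ℕ,
    (Real.log N) ^ A ≤ ({k : ℕ | Rep A C N i j k}.ncard : ℝ) := by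
  classical
  intro A
  obtain ⟨C, N0, h⟩ := Pool.Agent.Lib.RH.r3_many A
  refine ⟨C, N0, fun N hN i j => ?_⟩
  obtain ⟨-, h2⟩ := h N hN i j
  refine h2.trans (le_of_eq ?_)
  have h3 : {k : ℕ | Rep A C N i j k} =
      ↑((Finset.range (⌊(Real.log N) ^ C⌋₊ + 1)).filter
        (fun k => Pool.Agent.Lib.RH.RepK A C N i j k)) := by
    ext k
    rw [Set.mem_setOf_eq, Finset.mem_coe, Finset.mem_filter, Finset.mem_range]
    constructor
    · intro hk
      exact ⟨Nat.lt_succ_of_le (Nat.le_floor hk.2.1), hk⟩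
    · intro hk
      exact hk.2
  rw [h3, Set.ncard_coe_finset]

end Pool.Agent.Results.MP_61161c_nt.BoundedOmegaMultiples
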