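import Pool.Agent.Lib.SH.Pm9
import Pool.Agent.Lib.SH.PrinMid

/-!
# MP_61161c: prime midpoints: 2p is a sum of two distinct primes of given sets, for almost all primes p

Let `A` be a set of integers which meets all but a small proportion of the windows `(x, x + kappa log X]` with at least `m`
primes.  Principle: for every set `B` and almost all primes `p ≤ X`, if `2p` has at least `delta X / (log X) ^ 2`
representations as a sum of a prime and a prime of `B`, different from `p`, then a positive proportion of them have the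
first prime in `A`.  Hence, if `A` and `B` are two such sets, then for almost all primes `p ≤ X` the number `2p` has at
least `c X / (log X) ^ 2` representations as a sum of a prime of the first and a prime of the second set.
-/

set_option autoImplicit false

open Finset

namespace Pool.Agent.Lib.MP_61161c_nt.Shelf.ClusterMidpoints

open Classical in
/-- the number of `x ≤ Y` such that `(x, x + H]` contains at least `m` primes, but no prime of `A` -/
noncomputable def missed (m H Y : ℕ) (A : Set ℕ) : ℕ :=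
  ((Icc 1 Y).filter (fun x => m ≤ ((Ioc x (x + H)).filter Nat.Prime).card ∧
    ∀ p ∈ Ioc x (x + H), p.Prime → p ∉ A)).card

open Classical in
/-- the number of `n ≤ Y` such that `{n + 1, ..., n + m}` contains no element of `S` -/
noncomputable def gaps (m Y : ℕ) (S : Set ℕ) : ℕ :=
  ((range (Y + 1)).filter (fun n => ∀ b ∈ Ioc n (n + m), b ∉ S)).card

open Classical in
/-- the number of pairs of primes `p ∈ A`, `q ∈ B` with `p + q = 2n` and `p ≠ q` -/
noncomputable def reps (A B : Set ℕ) (n : ℕ) : ℕ :=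
  ((range (2 * n)).filter (fun p => p.Prime ∧ (2 * n - p).Prime ∧ p ≠ n ∧ p ∈ A ∧ 2 * n - p ∈ B)).card

/-- the primes `p` with `π(p) ∈ S` -/
def indexed (S : Set ℕ) : Set ℕ := {p | p.Prime ∧ Nat.primeCounting p ∈ S}

/-- the primes `p` such that `[p, p + H]` contains at least `m` primes -/
def clustered (m H : ℕ) : Set ℕ := {p | p.Prime ∧ m ≤ ((Icc p (p + H)).filter Nat.Prime).card}

private theorem missed_eq (m H Y : ℕ) (A : Set ℕ) : missed m H Y A = (Pool.Agent.Lib.SH.Miss m H Y A).card := by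
  unfold missed Pool.Agent.Lib.SH.Miss
  congr 1
  ext x
  simp only [mem_filter]
  refine and_congr_right fun _ => and_congr_right fun _ => ?_
  constructor
  · rintro h ⟨p, hp, hpp, h1, h2⟩
    exact h p (mem_Ioc.2 ⟨h1, h2⟩) hpp hp
  · intro h p hp hpp hpA
    rw [mem_Ioc] at hp
    exact h ⟨p, hpA, hpp, hp.1, hp.2⟩

private theorem rep_le (A B : Set ℕ) (n : ℕ) : Pool.Agent.Lib.SG.rep A B (2 * n) ≤ reps A B n + 1 := by
  classical
  unfold Pool.Agent.Lib.SG.rep reps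
  rw [← card_singleton n]
  refine le_trans (card_le_card ?_) (card_union_le _ _)
  intro a ha
  obtain ⟨ha1, ha2, ha3, ha4, ha5⟩ := (@Finset.mem_filter _ _ (_) _ _).mp ha
  rw [mem_union, mem_singleton]
  by_cases h1 : a = n
  · right
    exact h1
  · left
    refine (@Finset.mem_filter _ _ (_) _ _).mpr ⟨?_, ha3, ha5, h1, ha2, ha4⟩
    rw [mem_range] at ha1 ⊢
    by_contra hc
    have : 2 * n - a = 0 := by omega
    rw [this] at ha5
    exact Nat.not_prime_zero ha5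

private theorem big (K c : ℝ) (hc : 0 < c) : ∃ X₀ : ℕ, ∀ X : ℕ, X₀ ≤ X → 1 ≤ Real.log X ∧
    K * (Real.log X) ^ 2 ≤ c * X := by
  have h1 := Pool.Agent.Lib.SG.RNum6_log.eventually_ge_atTop 1
  have h2 := Pool.Agent.Lib.SG.RNum6_pow (K / c) 1 one_pos 2
  obtain ⟨X₀, h⟩ := Filter.eventually_atTop.mp (h1.and h2)
  refine ⟨X₀, fun X hX => ?_⟩
  obtain ⟨h3, h4⟩ := h X hX
  rw [Real.rpow_one, div_mul_eq_mul_div, div_le_iff₀ hc] at h4
  exact ⟨h3, by linarith⟩

open Classical in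
/-- the primes of `B` up to `2X` -/
private noncomputable def trunc (X : ℕ) (B : Set ℕ) : Finset ℕ :=
  (range (2 * X + 1)).filter fun b => b.Prime ∧ b ∈ B

private theorem pr1_le (X n : ℕ) (A B : Set ℕ) :
    Pool.Agent.Lib.SH.pr1 (trunc X B) A (2 * n) ≤ reps A B n + 1 := by
  classical
  unfold Pool.Agent.Lib.SH.pr1 reps
  rw [← card_singleton n]
  refine le_trans ?_ (card_union_le _ _)
  refine card_le_card_of_injOn (fun b => 2 * n - b) ?_ ?_
  · intro b hb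
    rw [mem_coe] at hb
    obtain ⟨hb1, hb2, hb3, hb4⟩ := (@Finset.mem_filter _ _ (_) _ _).mp hb
    unfold trunc at hb1
    obtain ⟨-, hb5, hb6⟩ := (@Finset.mem_filter _ _ (_) _ _).mp hb1
    rw [mem_coe, mem_union, mem_singleton]
    dsimp only
    by_cases h1 : 2 * n - b = n
    · right
      exact h1
    · left
      have h2 : 2 * n - (2 * n - b) = b := by omega
      have h3 := hb5.pos
      refine (@Finset.mem_filter _ _ (_) _ _).mpr ⟨?_, hb4, by rw [h2]; exact hb5, h1, hb3, by rw [h2]; exact hb6⟩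
      rw [mem_range]
      have h4 := hb4.pos
      omega
  · intro b hb b' hb' hbb
    rw [mem_coe] at hb hb'
    obtain ⟨-, hb2, -⟩ := (@Finset.mem_filter _ _ (_) _ _).mp hb
    obtain ⟨-, hb2', -⟩ := (@Finset.mem_filter _ _ (_) _ _).mp hb'
    dsimp only at hbb
    omega

private theorem reps_le (X n : ℕ) (hn : n ≤ X) (A B : Set ℕ) :
    reps A B n ≤ Pool.Agent.Lib.SH.pr1 (trunc X B) A (2 * n) := by
  classical
  unfold Pool.Agent.Lib.SH.pr1 reps
  refine card_le_card_of_injOn (fun a => 2 * n - a) ?_ ?_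
  · intro a ha
    rw [mem_coe] at ha
    obtain ⟨ha1, ha2, ha3, ha4, ha5, ha6⟩ := (@Finset.mem_filter _ _ (_) _ _).mp ha
    rw [mem_range] at ha1
    rw [mem_coe]
    dsimp only
    have h2 : 2 * n - (2 * n - a) = a := by omega
    refine (@Finset.mem_filter _ _ (_) _ _).mpr ⟨?_, by omega, by rw [h2]; exact ha5, by rw [h2]; exact ha2⟩
    unfold trunc
    refine (@Finset.mem_filter _ _ (_) _ _).mpr ⟨?_, ha3, ha6⟩
    rw [mem_range]
    omega
  · intro a ha a' ha' haa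
    rw [mem_coe] at ha ha'
    obtain ⟨ha1, -⟩ := (@Finset.mem_filter _ _ (_) _ _).mp ha
    obtain ⟨ha1', -⟩ := (@Finset.mem_filter _ _ (_) _ _).mp ha'
    rw [mem_range] at ha1 ha1'
    dsimp only at haa
    omega

open Classical in
private theorem part0 (m : ℕ) (hm : 1 ≤ m) : ∃ κ₀ : ℝ, 0 < κ₀ ∧ ∀ κ δ ε : ℝ, 0 < κ → κ ≤ κ₀ → 0 < δ → 0 < ε →
    ∃ c η : ℝ, 0 < c ∧ 0 < η ∧ ∃ X₀ : ℕ, ∀ X : ℕ, X₀ ≤ X → ∀ A B : Set ℕ,
    (missed m ⌊κ * Real.log X⌋₊ (2 * X) A : ℝ) ≤ η * X →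
    (((Icc 1 X).filter (fun p => p.Prime ∧ δ * X / (Real.log X) ^ 2 ≤ reps Set.univ B p ∧
      (reps A B p : ℝ) < c * reps Set.univ B p)).card : ℝ) ≤ ε * X / Real.log X := by
  obtain ⟨κ₀, hκ₀, h0⟩ := Pool.Agent.Lib.SH.prin_mid m hm
  refine ⟨κ₀, hκ₀, fun κ δ ε hκ0 hκκ hδ hε => ?_⟩
  obtain ⟨c, η, hc, hη, X₁, h1⟩ := h0 κ δ ε hκ0 hκκ hδ hε
  obtain ⟨X₂, h2⟩ := big 1 (c / 2 * δ) (by positivity)
  refine ⟨c / 2, η, by positivity, hη, max X₁ X₂, fun X hX A B hA => ?_⟩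
  rw [max_le_iff] at hX
  rw [missed_eq] at hA
  refine le_trans ?_ (h1 X hX.1 A hA (trunc X B) (fun b hb => by
    unfold trunc at hb
    exact ((@Finset.mem_filter _ _ (_) _ _).mp hb).2.1))
  obtain ⟨a1, a2⟩ := h2 X hX.2
  have hL : 0 < Real.log X := by linarith
  rw [Nat.cast_le]
  apply card_le_card
  intro n hn
  rw [mem_filter] at hn ⊢
  rw [mem_Icc] at hn
  obtain ⟨hn1, hn2, hn3, hn4⟩ := hn
  have b1 : (reps Set.univ B n : ℝ) ≤ Pool.Agent.Lib.SH.pr1 (trunc X B) Set.univ (2 * n) := by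
    exact_mod_cast reps_le X n hn1.2 Set.univ B
  have b2 : (Pool.Agent.Lib.SH.pr1 (trunc X B) Set.univ (2 * n) : ℝ) ≤ reps Set.univ B n + 1 := by
    exact_mod_cast pr1_le X n Set.univ B
  have b3 : (Pool.Agent.Lib.SH.pr1 (trunc X B) A (2 * n) : ℝ) ≤ reps A B n + 1 := by
    exact_mod_cast pr1_le X n A B
  refine ⟨mem_Icc.2 hn1, hn2, hn3.trans b1, ?_⟩
  have b4 : 1 ≤ c / 2 * δ * X / (Real.log X) ^ 2 := by
    rw [le_div_iff₀ (by positivity)]
    exact a2
  have b5 : c / 2 * (δ * X / (Real.log X) ^ 2) ≤ c / 2 * reps Set.univ B n :=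
    mul_le_mul_of_nonneg_left hn3 (by positivity)
  have b6 : c / 2 * δ * X / (Real.log X) ^ 2 = c / 2 * (δ * X / (Real.log X) ^ 2) := by ring
  have b7 : c * reps Set.univ B n ≤ c * Pool.Agent.Lib.SH.pr1 (trunc X B) Set.univ (2 * n) :=
    mul_le_mul_of_nonneg_left b1 hc.le
  linarith

open Classical in
private theorem part1 (m : ℕ) (hm : 1 ≤ m) : ∃ κ₀ : ℝ, 0 < κ₀ ∧ ∀ κ ε : ℝ, 0 < κ → κ ≤ κ₀ → 0 < ε →
    ∃ c η : ℝ, 0 < c ∧ 0 < η ∧ ∃ X₀ : ℕ, ∀ X : ℕ, X₀ ≤ X → ∀ A B : Set ℕ, (missed m ⌊κ * Real.log X⌋₊ (2 * X) A : ℝ) ≤ η * X →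
    (missed m ⌊κ * Real.log X⌋₊ (2 * X) B : ℝ) ≤ η * X →
    (((Icc 1 X).filter (fun p => p.Prime ∧ (reps A B p : ℝ) < c * X / (Real.log X) ^ 2)).card : ℝ) ≤
      ε * X / Real.log X := by
  obtain ⟨κ₀, hκ₀, h0⟩ := Pool.Agent.Lib.SH.pm9 m hm
  refine ⟨κ₀, hκ₀, fun κ ε hκ0 hκκ hε => ?_⟩
  obtain ⟨c, η, hc, hη, X₁, h1⟩ := h0 κ ε hκ0 hκκ hε
  obtain ⟨X₂, h2⟩ := big 1 (c / 2) (by positivity)
  refine ⟨c / 2, η, by positivity, hη, max X₁ X₂, fun X hX A B hA hB => ?_⟩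
  rw [max_le_iff] at hX
  rw [missed_eq] at hA hB
  refine le_trans ?_ (h1 X hX.1 A B hA hB)
  obtain ⟨a1, a2⟩ := h2 X hX.2
  have hL : 0 < Real.log X := by linarith
  rw [Nat.cast_le]
  apply card_le_card
  intro n hn
  rw [mem_filter] at hn ⊢
  refine ⟨hn.1, hn.2.1, ?_⟩
  have b1 : (Pool.Agent.Lib.SG.rep A B (2 * n) : ℝ) ≤ reps A B n + 1 := by exact_mod_cast rep_le A B n
  have b2 : 1 ≤ c / 2 * X / (Real.log X) ^ 2 := by
    rw [le_div_iff₀ (by positivity)]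
    exact a2
  have b3 : c * X / (Real.log X) ^ 2 = c / 2 * X / (Real.log X) ^ 2 + c / 2 * X / (Real.log X) ^ 2 := by ring
  rw [b3]
  linarith [hn.2.2]

private theorem pi_eq (x : ℕ) : Nat.primeCounting x = ((range (x + 1)).filter Nat.Prime).card := by
  rw [Nat.primeCounting, Nat.primeCounting', Nat.count_eq_card_filter_range]

private theorem pi_le (x : ℕ) : Nat.primeCounting x ≤ x := by
  rw [pi_eq]
  calc ((range (x + 1)).filter Nat.Prime).card ≤ (Ioc 0 x).card := by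
        apply card_le_card
        intro p hp
        rw [mem_filter, mem_range] at hp
        rw [mem_Ioc]
        exact ⟨hp.2.pos, by omega⟩
    _ = x := by simp

private theorem pi_window (x H : ℕ) :
    Nat.primeCounting (x + H) = Nat.primeCounting x + ((Ioc x (x + H)).filter Nat.Prime).card := by
  rw [pi_eq, pi_eq, ← card_union_of_disjoint]
  · congr 1
    ext p
    rw [mem_union, mem_filter, mem_filter, mem_filter, mem_range, mem_range, mem_Ioc]
    constructor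
    · rintro ⟨h1, h2⟩
      by_cases h3 : p < x + 1
      · exact Or.inl ⟨h3, h2⟩
      · exact Or.inr ⟨⟨by omega, by omega⟩, h2⟩
    · rintro (⟨h1, h2⟩ | ⟨h1, h2⟩)
      · exact ⟨by omega, h2⟩
      · exact ⟨by omega, h2⟩
  · rw [disjoint_left]
    intro p hp hq
    rw [mem_filter, mem_range] at hp
    rw [mem_filter, mem_Ioc] at hq
    omega

private theorem nth_window (x H j : ℕ) (h1 : Nat.primeCounting x ≤ j)
    (h2 : j + 1 ≤ Nat.primeCounting (x + H)) :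
    x < Nat.nth Nat.Prime j ∧ Nat.nth Nat.Prime j ≤ x + H ∧
      Nat.primeCounting (Nat.nth Nat.Prime j) = j + 1 := by
  have hpi : Nat.primeCounting (Nat.nth Nat.Prime j) = j + 1 := by
    unfold Nat.primeCounting Nat.primeCounting'
    exact Nat.count_nth_succ_of_infinite Nat.infinite_setOfPred_prime j
  refine ⟨?_, ?_, hpi⟩
  · by_contra hcon
    have := Nat.monotone_primeCounting (not_lt.mp hcon)
    omega
  · have h3 : j < Nat.count Nat.Prime (x + H + 1) := by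
      have h4 : Nat.primeCounting (x + H) = Nat.count Nat.Prime (x + H + 1) := rfl
      omega
    exact Nat.lt_succ_iff.mp (Nat.nth_lt_of_lt_count h3)

/-- the windows missed by the primes with indices in `S` come from the gaps of `S` -/
private theorem missed_le (m H Y : ℕ) (hm : 1 ≤ m) (S : Set ℕ) :
    missed m H Y (indexed S) ≤ H * gaps m (Nat.primeCounting Y) S := by
  classical
  obtain ⟨M, hM⟩ : ∃ M : Finset ℕ, M = (Icc 1 Y).filter
    (fun x => m ≤ ((Ioc x (x + H)).filter Nat.Prime).card ∧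
      ∀ p ∈ Ioc x (x + H), p.Prime → p ∉ indexed S) := ⟨_, rfl⟩
  obtain ⟨G, hG⟩ : ∃ G : Finset ℕ, G = (range (Nat.primeCounting Y + 1)).filter
    (fun n => ∀ b ∈ Ioc n (n + m), b ∉ S) := ⟨_, rfl⟩
  have e1 : missed m H Y (indexed S) = M.card := by
    rw [hM]
    unfold missed
    congr
  have e2 : gaps m (Nat.primeCounting Y) S = G.card := by
    rw [hG]
    unfold gaps
    congr
  rw [e1, e2]
  have h1 : M.image Nat.primeCounting ⊆ G := by
    intro j hj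
    rw [mem_image] at hj
    obtain ⟨x, hx, rfl⟩ := hj
    rw [hM, mem_filter, mem_Icc] at hx
    obtain ⟨hx1, hx2, hx3⟩ := hx
    rw [hG, mem_filter, mem_range]
    have hpx := Nat.monotone_primeCounting hx1.2
    refine ⟨by omega, fun b hb hbS => ?_⟩
    rw [mem_Ioc] at hb
    have hw := pi_window x H
    obtain ⟨j, rfl⟩ : ∃ j, b = j + 1 := ⟨b - 1, by omega⟩
    obtain ⟨n1, n2, n3⟩ := nth_window x H j (by omega) (by omega)
    exact hx3 _ (mem_Ioc.2 ⟨n1, n2⟩) (Nat.prime_nth_prime j)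
      ⟨Nat.prime_nth_prime j, by rw [n3]; exact hbS⟩
  have h2 : ∀ j ∈ M.image Nat.primeCounting, (M.filter (fun x => Nat.primeCounting x = j)).card ≤ H := by
    intro j _
    have h3 : M.filter (fun x => Nat.primeCounting x = j) ⊆
        Ico (Nat.nth Nat.Prime j - H) (Nat.nth Nat.Prime j) := by
      intro x hx
      rw [mem_filter] at hx
      obtain ⟨hx0, hxj⟩ := hx
      rw [hM, mem_filter, mem_Icc] at hx0
      have hw := pi_window x H
      obtain ⟨n1, n2, -⟩ := nth_window x H j (by omega) (by omega)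
      rw [mem_Ico]
      omega
    refine (card_le_card h3).trans ?_
    rw [Nat.card_Ico]
    omega
  have h4 := card_le_mul_card_image M H h2
  exact h4.trans (Nat.mul_le_mul_left H (card_le_card h1))

private theorem pi_upper : ∃ X₀ : ℕ, ∀ X : ℕ, X₀ ≤ X → 1 ≤ Real.log X ∧
    (Nat.primeCounting (2 * X) : ℝ) * Real.log X ≤ 4 * X := by
  have h1 := Chebyshev.eventually_primeCounting_le (show (0 : ℝ) < 1 / 2 by norm_num)
  obtain ⟨x₀, h2⟩ := Filter.eventually_atTop.mp h1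
  obtain ⟨X₁, h3⟩ := Filter.eventually_atTop.mp (Pool.Agent.Lib.SG.RNum6_log.eventually_ge_atTop 1)
  refine ⟨max ⌈x₀⌉₊ X₁, fun X hX => ?_⟩
  rw [max_le_iff] at hX
  have a1 := h3 X hX.2
  have hX0 : 0 < X := by
    rcases Nat.eq_zero_or_pos X with h | h
    · subst h
      norm_num at a1
    · exact h
  have hXR : (0 : ℝ) < X := by exact_mod_cast hX0
  have a2 := h2 ((2 * X : ℕ) : ℝ) (by
    have := Nat.le_ceil x₀
    have h4 : ((⌈x₀⌉₊ : ℕ) : ℝ) ≤ X := by exact_mod_cast hX.1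
    push_cast
    linarith)
  rw [Nat.floor_natCast] at a2
  have h5 : Real.log X ≤ Real.log ((2 * X : ℕ) : ℝ) := by
    apply Real.log_le_log hXR
    push_cast
    linarith
  have h6 : Real.log 4 ≤ 3 / 2 := by
    have e1 : Real.log 4 = 2 * Real.log 2 := by
      rw [show (4 : ℝ) = 2 ^ 2 by norm_num, Real.log_pow]
      norm_num
    rw [e1]
    have := Real.log_two_lt_d9
    linarith
  refine ⟨a1, ?_⟩
  have h7 : 0 < Real.log ((2 * X : ℕ) : ℝ) := by linarith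
  rw [le_div_iff₀ h7] at a2
  push_cast at a2 h5 ⊢
  have h8 : (Nat.primeCounting (2 * X) : ℝ) * Real.log X ≤
      (Nat.primeCounting (2 * X) : ℝ) * Real.log (2 * X) := mul_le_mul_of_nonneg_left h5 (Nat.cast_nonneg _)
  have h9 : (Real.log 4 + 1 / 2) * (2 * (X : ℝ)) ≤ 2 * (2 * X) := by
    apply mul_le_mul_of_nonneg_right _ (by linarith)
    linarith
  linarith

open Classical in
private theorem part2 (m : ℕ) (hm : 1 ≤ m) (ε : ℝ) (hε : 0 < ε) : ∃ c η : ℝ, 0 < c ∧ 0 < η ∧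
    ∃ X₀ : ℕ, ∀ X : ℕ, X₀ ≤ X → ∀ S T : Set ℕ,
    (gaps m (Nat.primeCounting (2 * X)) S : ℝ) ≤ η * Nat.primeCounting (2 * X) →
    (gaps m (Nat.primeCounting (2 * X)) T : ℝ) ≤ η * Nat.primeCounting (2 * X) →
    (((Icc 1 X).filter (fun p => p.Prime ∧
      (reps (indexed S) (indexed T) p : ℝ) < c * X / (Real.log X) ^ 2)).card : ℝ) ≤ ε * X / Real.log X := by
  obtain ⟨κ, hκ0, h0⟩ := part1 m hm
  obtain ⟨c, η, hc, hη, X₁, h1⟩ := h0 κ ε hκ0 le_rfl hε
  obtain ⟨X₂, h2⟩ := pi_upper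
  refine ⟨c, η / (4 * κ), hc, by positivity, max X₁ X₂, fun X hX S T hS hT => ?_⟩
  rw [max_le_iff] at hX
  obtain ⟨a1, a2⟩ := h2 X hX.2
  have hL : 0 < Real.log X := by linarith
  have hq : ∀ R : Set ℕ, (gaps m (Nat.primeCounting (2 * X)) R : ℝ) ≤
      η / (4 * κ) * Nat.primeCounting (2 * X) →
      (missed m ⌊κ * Real.log X⌋₊ (2 * X) (indexed R) : ℝ) ≤ η * X := by
    intro R hR
    have b1 : ((⌊κ * Real.log X⌋₊ : ℕ) : ℝ) ≤ κ * Real.log X := Nat.floor_le (by positivity)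
    calc (missed m ⌊κ * Real.log X⌋₊ (2 * X) (indexed R) : ℝ) ≤
          (⌊κ * Real.log X⌋₊ : ℕ) * gaps m (Nat.primeCounting (2 * X)) R := by
          exact_mod_cast missed_le m _ (2 * X) hm R
      _ ≤ (κ * Real.log X) * (η / (4 * κ) * Nat.primeCounting (2 * X)) :=
          mul_le_mul b1 hR (Nat.cast_nonneg _) (by positivity)
      _ = η / 4 * (Nat.primeCounting (2 * X) * Real.log X) := by
          field_simp
      _ ≤ η / 4 * (4 * X) := by gcongr
      _ = η * X := by ring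
  exact h1 X hX.1 (indexed S) (indexed T) (hq S hS) (hq T hT)

private theorem clustered_missed (m H Y : ℕ) (hm : 1 ≤ m) : missed m H Y (clustered m H) = 0 := by
  unfold missed
  rw [card_eq_zero]
  ext x
  constructor
  · intro hx
    obtain ⟨-, h1, h2⟩ := (@Finset.mem_filter _ _ (_) _ _).mp hx
    exfalso
    obtain ⟨F, hF⟩ : ∃ F : Finset ℕ, F = (Ioc x (x + H)).filter Nat.Prime := ⟨_, rfl⟩
    rw [← hF] at h1
    have hne : F.Nonempty := card_pos.mp (by omega)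
    have h3 := F.min'_mem hne
    obtain ⟨p, hp⟩ : ∃ p, p = F.min' hne := ⟨_, rfl⟩
    rw [← hp] at h3
    have h4 := h3
    rw [hF, mem_filter, mem_Ioc] at h4
    refine h2 p (mem_Ioc.2 h4.1) h4.2 ⟨h4.2, h1.trans (card_le_card fun q hq => ?_)⟩
    have h5 : p ≤ q := by
      rw [hp]
      exact F.min'_le q hq
    rw [hF, mem_filter, mem_Ioc] at hq
    rw [mem_filter, mem_Icc]
    exact ⟨⟨h5, by omega⟩, hq.2⟩
  · intro hx
    exact absurd hx (notMem_empty x)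

private theorem clustered_mono (m H H' : ℕ) (h : H ≤ H') : clustered m H ⊆ clustered m H' := by
  intro p hp
  refine ⟨hp.1, hp.2.trans (card_le_card fun q hq => ?_)⟩
  rw [mem_filter, mem_Icc] at hq ⊢
  exact ⟨by omega, hq.2⟩

private theorem reps_mono (A A' : Set ℕ) (h : A ⊆ A') (n : ℕ) : reps A A n ≤ reps A' A' n := by
  unfold reps
  refine card_le_card fun p hp => ?_
  obtain ⟨h1, h2, h3, h4, h5, h6⟩ := (@Finset.mem_filter _ _ (_) _ _).mp hp
  exact (@Finset.mem_filter _ _ (_) _ _).mpr ⟨h1, h2, h3, h4, h h5, h h6⟩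

open Classical in
private theorem part3 (m : ℕ) (hm : 1 ≤ m) (lam ε : ℝ) (hl : 0 < lam) (hε : 0 < ε) : ∃ c : ℝ, 0 < c ∧
    ∃ X₀ : ℕ, ∀ X : ℕ, X₀ ≤ X → (((Icc 1 X).filter (fun n => n.Prime ∧ (reps (clustered m ⌊lam * Real.log X⌋₊) (clustered m ⌊lam * Real.log X⌋₊) n : ℝ) <
      c * X / (Real.log X) ^ 2)).card : ℝ) ≤ ε * X / Real.log X := by
  obtain ⟨κ₀, hκ₀, h0⟩ := part1 m hm
  obtain ⟨c, η, hc, hη, X₁, h1⟩ := h0 (min κ₀ lam) ε (lt_min hκ₀ hl) (min_le_left _ _) hε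
  obtain ⟨X₂, h2⟩ := big 1 1 one_pos
  refine ⟨c, hc, max X₁ X₂, fun X hX => ?_⟩
  rw [max_le_iff] at hX
  have hL : 1 ≤ Real.log X := (h2 X hX.2).1
  obtain ⟨H, hH⟩ : ∃ H : ℕ, H = ⌊min κ₀ lam * Real.log X⌋₊ := ⟨_, rfl⟩
  have hHH : H ≤ ⌊lam * Real.log X⌋₊ := by
    rw [hH]
    apply Nat.floor_le_floor
    exact mul_le_mul_of_nonneg_right (min_le_right _ _) (by linarith)
  have h3 : (missed m ⌊min κ₀ lam * Real.log X⌋₊ (2 * X) (clustered m H) : ℝ) ≤ η * X := by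
    rw [← hH, clustered_missed m H (2 * X) hm, Nat.cast_zero]
    positivity
  refine le_trans ?_ (h1 X hX.1 (clustered m H) (clustered m H) h3 h3)
  rw [Nat.cast_le]
  apply card_le_card
  intro n hn
  rw [mem_filter] at hn ⊢
  have h4 : (reps (clustered m H) (clustered m H) n : ℝ) ≤
      reps (clustered m ⌊lam * Real.log X⌋₊) (clustered m ⌊lam * Real.log X⌋₊) n := by
    exact_mod_cast reps_mono _ _ (clustered_mono m H _ hHH) n
  exact ⟨hn.1, hn.2.1, lt_of_le_of_lt h4 hn.2.2⟩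

open Classical in
/-- for almost all primes `p`, `2p` is a sum of two distinct primes of sets which meet the clusters of length a small multiple
of `log X`, with the right order of magnitude -/
theorem result :
    (∀ m : ℕ, 1 ≤ m → ∃ κ₀ : ℝ, 0 < κ₀ ∧ ∀ κ δ ε : ℝ, 0 < κ → κ ≤ κ₀ → 0 < δ → 0 < ε →
      ∃ c η : ℝ, 0 < c ∧ 0 < η ∧ ∃ X₀ : ℕ, ∀ X : ℕ, X₀ ≤ X → ∀ A B : Set ℕ,
      (missed m ⌊κ * Real.log X⌋₊ (2 * X) A : ℝ) ≤ η * X →
      (((Icc 1 X).filter (fun p => p.Prime ∧ δ * X / (Real.log X) ^ 2 ≤ reps Set.univ B p ∧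
        (reps A B p : ℝ) < c * reps Set.univ B p)).card : ℝ) ≤ ε * X / Real.log X) ∧
    (∀ m : ℕ, 1 ≤ m → ∃ κ₀ : ℝ, 0 < κ₀ ∧ ∀ κ ε : ℝ, 0 < κ → κ ≤ κ₀ → 0 < ε → ∃ c η : ℝ, 0 < c ∧ 0 < η ∧
      ∃ X₀ : ℕ, ∀ X : ℕ, X₀ ≤ X → ∀ A B : Set ℕ,
      (missed m ⌊κ * Real.log X⌋₊ (2 * X) A : ℝ) ≤ η * X →
      (missed m ⌊κ * Real.log X⌋₊ (2 * X) B : ℝ) ≤ η * X →
      (((Icc 1 X).filter (fun p => p.Prime ∧ (reps A B p : ℝ) < c * X / (Real.log X) ^ 2)).card : ℝ) ≤
        ε * X / Real.log X) ∧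
    (∀ m : ℕ, 1 ≤ m → ∀ ε : ℝ, 0 < ε → ∃ c η : ℝ, 0 < c ∧ 0 < η ∧
      ∃ X₀ : ℕ, ∀ X : ℕ, X₀ ≤ X → ∀ S T : Set ℕ,
      (gaps m (Nat.primeCounting (2 * X)) S : ℝ) ≤ η * Nat.primeCounting (2 * X) →
      (gaps m (Nat.primeCounting (2 * X)) T : ℝ) ≤ η * Nat.primeCounting (2 * X) →
      (((Icc 1 X).filter (fun p => p.Prime ∧
        (reps (indexed S) (indexed T) p : ℝ) < c * X / (Real.log X) ^ 2)).card : ℝ) ≤ ε * X / Real.log X) ∧
    (∀ m : ℕ, 1 ≤ m → ∀ lam ε : ℝ, 0 < lam → 0 < ε → ∃ c : ℝ, 0 < c ∧ ∃ X₀ : ℕ, ∀ X : ℕ, X₀ ≤ X →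
      (((Icc 1 X).filter (fun p => p.Prime ∧
        (reps (clustered m ⌊lam * Real.log X⌋₊) (clustered m ⌊lam * Real.log X⌋₊) p : ℝ) <
          c * X / (Real.log X) ^ 2)).card : ℝ) ≤ ε * X / Real.log X) :=
  ⟨part0, part1, part2, part3⟩

end Pool.Agent.Lib.MP_61161c_nt.Shelf.ClusterMidpoints
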