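import Pool.Agent.Lib.SW.MP.MP6
import Pool.Agent.Lib.SW.LG2

/-!
# A local-global principle for primes which are midpoints of a prime and an element of a sparse set

Let `S` be any set of integers up to `X`, and let `W` be the product of the primes up to
`log log X`.  For almost all primes `p` in `(X/2, X]` the number of `s ∈ S` with `2p - s` prime is
asymptotic to `(W/φ(W)) #{s ∈ S : (2p - s, W) = 1} / log X`, as soon as the local count is at least
`X / (log X)^K`; here `K` is arbitrary.  The even numbers `2p` are exactly those for which the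
question asks for more than the binary Goldbach conjecture.

The proof uses the theorem of Siegel and Walfisz, Vinogradov's method with Vaughan's identity, the
second moment of a Ramanujan model over the primes in a residue class, and a bound for the number
of differences of elements of a sparse set which have many prime factors `> log log X`.  All of it
is proved here.
-/

open Finset

namespace Pool.Agent.Lib.MP_61161c_nt.Shelf.MidpointPrinciple

/-- The product of the primes up to `log log X`. -/
noncomputable def W (X : ℕ) : ℕ :=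
  ∏ p ∈ (range (⌊Real.log (Real.log X)⌋₊ + 1)).filter Nat.Prime, p

/-- `W/φ(W)`. -/
noncomputable def ratio (X : ℕ) : ℝ := (W X : ℝ) / (Nat.totient (W X) : ℝ)

/-- The number of `s ∈ S` with `2p - s` a prime. -/
def primeCount (S : Finset ℕ) (p : ℕ) : ℕ :=
  (S.filter (fun s => s < 2 * p ∧ (2 * p - s).Prime)).card

/-- The number of `s ∈ S`, `s < 2p`, with `2p - s` coprime to `W`. -/
noncomputable def localCount (X : ℕ) (S : Finset ℕ) (p : ℕ) : ℕ :=
  (S.filter (fun s => s < 2 * p ∧ Nat.Coprime (2 * p - s) (W X))).card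

open Pool.Agent.Lib.SW

theorem W_eq (X : ℕ) : W X = WX X := rfl

theorem ratio_eq (X : ℕ) : ratio X = cX X := rfl

theorem principle (K : ℕ) (ε : ℝ) (hε : 0 < ε) : ∃ X₀ : ℕ, ∀ X : ℕ, X₀ ≤ X →
    ∀ S : Finset ℕ, S ⊆ Icc 1 X →
      (((Ioc (X / 2) X).filter (fun p => p.Prime ∧
        ε * ratio X * max (localCount X S p : ℝ) (X / (Real.log X) ^ K) / Real.log X <
          |(primeCount S p : ℝ) - ratio X * localCount X S p / Real.log X|)).card : ℝ) ≤
      ε * X / Real.log X :=
  mid_local_global K ε hε

theorem result :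
    -- the local-global principle, for all sets `S`
    (∀ (K : ℕ) (ε : ℝ), 0 < ε → ∃ X₀ : ℕ, ∀ X : ℕ, X₀ ≤ X → ∀ S : Finset ℕ, S ⊆ Icc 1 X →
      (((Ioc (X / 2) X).filter (fun p => p.Prime ∧
        ε * ratio X * max (localCount X S p : ℝ) (X / (Real.log X) ^ K) / Real.log X <
          |(primeCount S p : ℝ) - ratio X * localCount X S p / Real.log X|)).card : ℝ) ≤
      ε * X / Real.log X) ∧
    -- in particular: `2p = s + q` with `s ∈ S` and a prime `q`, `s ≠ q`, for almost all primes
    -- without a local obstruction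
    (∀ (K : ℕ) (ε : ℝ), 0 < ε → ∃ X₀ : ℕ, ∀ X : ℕ, X₀ ≤ X → ∀ S : Finset ℕ, S ⊆ Icc 1 X →
      (((Ioc (X / 2) X).filter (fun p => p.Prime ∧
        X / (Real.log X) ^ K ≤ (localCount X S p : ℝ) ∧
        ¬ ∃ s ∈ S, s < 2 * p ∧ s ≠ p ∧ (2 * p - s).Prime)).card : ℝ) ≤ ε * X / Real.log X) := by
  refine ⟨principle, ?_⟩
  intro K ε hε
  obtain ⟨X₀, h⟩ := principle K (min ε (1 / 2)) (lt_min hε (by norm_num))
  obtain ⟨X₁, hX₁⟩ := Filter.eventually_atTop.1
    ((eventually_log_ge 1).and (eventually_log_pow (K + 1) (1 / 4) (by norm_num)))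
  refine ⟨max X₀ (max X₁ 3), fun X hX S hS => ?_⟩
  have h1 := h X ((le_max_left _ _).trans hX) S hS
  obtain ⟨h2, h3⟩ := hX₁ X ((le_max_left _ _).trans ((le_max_right _ _).trans hX))
  have hX3 : 3 ≤ X := (le_max_right _ _).trans ((le_max_right _ _).trans hX)
  have hXr : (3 : ℝ) ≤ X := by exact_mod_cast hX3
  have hlog : 0 < Real.log X := by linarith
  refine le_trans ?_ (h1.trans (by gcongr; exact min_le_left _ _))
  norm_cast
  refine Finset.card_le_card ?_
  intro p hp
  rw [Finset.mem_filter] at hp ⊢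
  obtain ⟨hp1, hp2, hp3, hp4⟩ := hp
  refine ⟨hp1, hp2, ?_⟩
  -- at most one representation
  have h0 : primeCount S p ≤ 1 := by
    unfold primeCount
    refine (Finset.card_le_card (t := {p}) ?_).trans (by simp)
    intro s hs
    rw [Finset.mem_filter] at hs
    rw [Finset.mem_singleton]
    by_contra hne
    exact hp4 ⟨s, hs.1, hs.2.1, hne, hs.2.2⟩
  have h0r : (primeCount S p : ℝ) ≤ 1 := by exact_mod_cast h0
  have hr : 1 ≤ ratio X := one_le_cX X
  have hpos : 0 < (X : ℝ) / (Real.log X) ^ K := by positivity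
  rw [max_eq_left hp3]
  generalize (localCount X S p : ℝ) = L at *
  have hLpos : 0 < L := lt_of_lt_of_le hpos hp3
  -- `L / log X ≥ 4`
  have h5 : 4 ≤ L / Real.log X := by
    rw [le_div_iff₀ hlog]
    refine le_trans ?_ hp3
    rw [le_div_iff₀ (by positivity)]
    have h6 : (Real.log X) ^ (K + 1) ≤ 1 / 4 * X := h3
    rw [pow_succ] at h6
    linarith
  have h7 : 0 ≤ ratio X * L / Real.log X := by positivity
  have h8 : 4 ≤ ratio X * L / Real.log X := by
    rw [mul_div_assoc]
    nlinarith
  have h9 : min ε (1 / 2) ≤ 1 / 2 := min_le_right _ _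
  have h10 : min ε (1 / 2) * ratio X * L / Real.log X ≤ 1 / 2 * (ratio X * L / Real.log X) := by
    rw [mul_assoc, mul_div_assoc]
    exact mul_le_mul_of_nonneg_right h9 h7
  rw [abs_sub_comm]
  refine lt_of_lt_of_le ?_ (le_abs_self _)
  linarith

end Pool.Agent.Lib.MP_61161c_nt.Shelf.MidpointPrinciple
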