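import Pool.Agent.Lib.MP_7b7e48_nt.TC.FinB

/-!
# Goldbach's problem with an almost prime and prescribed parity of the total number of prime factors, for EVERY large even `N`

`Ω` is the number of prime factors, counted with multiplicity. For every `A` and `ε > 0` there is a `C` such that every large even
number `N` has, for `i = 0` and for `i = 1`, at least `N ^ (1 - ε)` representations `N = a + b` with positive, coprime, different
`a`, `b` such that `Ω a + Ω b ≡ i` modulo `2`, all prime factors of `a` are larger than `(log N) ^ A`, all prime factors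
of `b` are larger than `N ^ (1 / C)`, and `Ω b < C`.
-/

namespace Pool.Agent.Results.MP_61161c_nt.ParityAlmostPrimeGoldbach

open ArithmeticFunction (cardFactors)

open Classical in
/-- the `0 < a < N`, coprime to `N`, with `a ≠ N - a` and `Ω a + Ω (N - a) ≡ i` modulo `2` such that all prime factors of `a` are
larger than `(log N) ^ A`, all prime factors of `N - a` are larger than `N ^ (1 / C)`, and `Ω (N - a) < C` -/
noncomputable def reps (A C i N : ℕ) : Finset ℕ :=
  (Finset.Ioo 0 N).filter fun a => a.Coprime N ∧ a ≠ N - a ∧ (cardFactors a + cardFactors (N - a)) % 2 = i ∧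
    (∀ p ∈ a.primeFactors, Real.log N ^ A < p) ∧ (∀ p ∈ (N - a).primeFactors, (N : ℝ) ^ (1 / (C : ℝ)) < p) ∧
    cardFactors (N - a) < C

theorem result : ∀ (A : ℕ) (ε : ℝ), 0 < ε → ∃ C : ℕ, ∃ N₀ : ℕ, ∀ N : ℕ, N₀ ≤ N → Even N → ∀ i : ℕ, i < 2 →
    (N : ℝ) ^ (1 - ε) ≤ ((reps A C i N).card : ℝ) :=
  Pool.Agent.Lib.TC.tc1_hand

end Pool.Agent.Results.MP_61161c_nt.ParityAlmostPrimeGoldbach
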