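import Pool.Agent.Lib.SW.PM.PM9
import Pool.Agent.Lib.SW.PM.PM10

/-!
# Prime midpoints of arbitrary sparse sets of primes

Let `A` be any set of primes up to `X` with at least `π(X) / (log X)^K` elements.  Then `2p = a + b`
with `a, b ∈ A` distinct for at least `#A (log X)^(-(K log 2 + ε)/logloglog X)` primes `p`, and at
least `#A (log X)^(-(K log 3 + ε)/logloglog X)` elements `b` of `A` satisfy `2b = a + q` with
`a ∈ A` and a prime `q ≠ a`.  The number of pairs `(a, b)` with prime midpoint is at least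
`#A² (log X)^(-1 - (K log 2 + ε)/logloglog X)`, and here `K log 2` is best possible.

The proof uses a positive definite kernel, moments, and the theorem of Siegel and Walfisz with
Vinogradov's method.  All of it is proved here.
-/

open Finset

namespace Pool.Agent.Results.MP_61161c_nt.PrimeMidpoints

/-- `(log X)^(1 / logloglog X)`, smaller than every power of `log X`. -/
noncomputable def slow (X : ℕ) : ℝ :=
  Real.exp (Real.log (Real.log X) / Real.log (Real.log (Real.log X)))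

/-- A set of primes up to `X` with at least `π(X) / (log X)^K` elements. -/
def Dense (K : ℝ) (X : ℕ) (A : Finset ℕ) : Prop :=
  (∀ a ∈ A, a.Prime ∧ a ≤ X) ∧ (Nat.primeCounting X : ℝ) / (Real.log X) ^ K ≤ (A.card : ℝ)

open Classical in
/-- The number of primes `p` with `2p = a + b` for some distinct `a, b ∈ A`. -/
noncomputable def midpoints (X : ℕ) (A : Finset ℕ) : ℕ :=
  ((Icc 1 X).filter (fun p => p.Prime ∧ ∃ a ∈ A, ∃ b ∈ A, a ≠ b ∧ a + b = 2 * p)).card

open Classical in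
/-- The number of `b ∈ A` with `2b = a + q` for some `a ∈ A` and some prime `q ≠ a`. -/
noncomputable def inner (A : Finset ℕ) : ℕ :=
  (A.filter (fun b => ∃ a ∈ A, ∃ q : ℕ, q.Prime ∧ a ≠ q ∧ a + q = 2 * b)).card

open Classical in
/-- The number of pairs `(a, b)` of distinct elements of `A` with `a + b = 2p`, `p` prime. -/
noncomputable def pairs (A : Finset ℕ) : ℕ :=
  ((A ×ˢ A).filter (fun q => q.1 ≠ q.2 ∧ ∃ p, p.Prime ∧ q.1 + q.2 = 2 * p)).card

open Pool.Agent.Lib.SW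

theorem slow_rpow (X : ℕ) (t : ℝ) : (slow X) ^ (-t) =
    Real.exp (-t * Real.log (Real.log X) / Real.log (Real.log (Real.log X))) := by
  unfold slow
  rw [← Real.exp_mul]
  congr 1
  ring

theorem dense_card (K : ℝ) (hK : 0 ≤ K) : ∃ X₀ : ℕ, ∀ X : ℕ, X₀ ≤ X → ∀ A : Finset ℕ, Dense K X A →
    (1 / 10) * X / (Real.log X) ^ (K + 1) ≤ (A.card : ℝ) := by
  refine ⟨3, fun X hX A hA => le_trans ?_ hA.2⟩
  have hX3 : (3 : ℝ) ≤ X := by exact_mod_cast hX
  have hL : 0 < Real.log X := Real.log_pos (by linarith)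
  have h1 := Pool.Agent.Lib.MP_5d7b92_nt.primeCounting_ge X (by omega)
  rw [Real.rpow_add hL, Real.rpow_one, mul_comm ((Real.log X) ^ K) (Real.log X), ← div_div]
  refine div_le_div_of_nonneg_right ?_ (Real.rpow_nonneg hL.le _)
  exact h1

theorem result :
    (∀ K ε : ℝ, 0 ≤ K → 0 < ε → ∃ X₀ : ℕ, ∀ X : ℕ, X₀ ≤ X → ∀ A : Finset ℕ, Dense K X A →
      (A.card : ℝ) * (slow X) ^ (-(K * Real.log 2 + ε)) ≤ (midpoints X A : ℝ) ∧
      (A.card : ℝ) * (slow X) ^ (-(K * Real.log 3 + ε)) ≤ (inner A : ℝ) ∧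
      (A.card : ℝ) ^ 2 / Real.log X * (slow X) ^ (-(K * Real.log 2 + ε)) ≤ (pairs A : ℝ)) ∧
    -- the constant `K log 2` is best possible for the number of pairs
    (∀ K ε : ℝ, 0 < K → 0 < ε → ∃ X₀ : ℕ, ∀ X : ℕ, X₀ ≤ X → ∃ A : Finset ℕ, Dense K X A ∧
      (pairs A : ℝ) ≤ (A.card : ℝ) ^ 2 / Real.log X * (slow X) ^ (-(K * Real.log 2 - ε))) := by
  refine ⟨?_, ?_⟩
  · intro K ε hK hε
    obtain ⟨X₁, h1⟩ := mid_count K ε (1 / 10) hK hε (by norm_num)
    obtain ⟨X₂, h2⟩ := third_count K ε (1 / 10) hK hε (by norm_num)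
    obtain ⟨X₃, h3⟩ := pairs_mid K ε (1 / 10) hK hε (by norm_num)
    obtain ⟨X₄, h4⟩ := dense_card K hK
    refine ⟨max (max X₁ X₂) (max X₃ X₄), fun X hX A hA => ?_⟩
    have hX₁ := ((le_max_left X₁ X₂).trans (le_max_left _ _)).trans hX
    have hX₂ := ((le_max_right X₁ X₂).trans (le_max_left _ _)).trans hX
    have hX₃ := ((le_max_left X₃ X₄).trans (le_max_right _ _)).trans hX
    have hX₄ := ((le_max_right X₃ X₄).trans (le_max_right _ _)).trans hX
    have hc := h4 X hX₄ A hA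
    rw [slow_rpow, slow_rpow]
    exact ⟨h1 X hX₁ A hA.1 hc, h2 X hX₂ A hA.1 hc, h3 X hX₃ A hA.1 hc⟩
  · intro K ε hK hε
    obtain ⟨X₁, h1⟩ := mid_pairs_sharp K ε hK hε
    refine ⟨X₁, fun X hX => ?_⟩
    obtain ⟨A, hA1, hA2, hA3⟩ := h1 X hX
    refine ⟨A, ⟨hA1, hA2⟩, ?_⟩
    rw [slow_rpow]
    exact hA3

end Pool.Agent.Results.MP_61161c_nt.PrimeMidpoints
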