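import Pool.Agent.Lib.MP_7b7e48_nt.RU.RU11

/-!
# Robust Goldbach: how many primes must be deleted to destroy Goldbach representations

For a set `B` of primes let `hit B n` be the number of representations `2 n = p + q` with primes
`p < q` for which `p ∈ B` or `q ∈ B`; they are the representations that are lost when the primes of
`B` are deleted.  If `B` contains a proportion at most `η` of the primes, then for all but
`exp (-exp ((t κ - ε) / η)) X` of the `n ≤ X` fewer than a proportion `t` of the representations of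
`2 n` are lost (and `2 n` has representations), and here the constant `κ = C₂ e^{-γ}` is the best
possible one, for every `t ∈ (0, 1]`.  This holds uniformly for all `η ≤ η₀`, also for `η` that tend
to `0` with `X`, as long as the exceptional set has at least `X / (log X) ^ A` elements; so
`tκ / log log log X` is the sharp threshold for the proportion of primes whose deletion can destroy
a proportion `t` of the representations for more than `X / (log X) ^ A` of the `n ≤ X`.
-/

open Finset Pool.Agent.Lib.GT Pool.Agent.Lib.MP_7b7e48_nt.RU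

namespace Pool.Agent.Results.MP_61161c_nt.RobustGoldbach

/-- The number of representations `2 n = p + q` with primes `p < q`. -/
def rep (n : ℕ) : ℕ := ((range n).filter (fun p => p.Prime ∧ (2 * n - p).Prime)).card

open Classical in
/-- The number of representations `2 n = p + q` with primes `p < q` and `p ∈ B` or `q ∈ B`. -/
noncomputable def hit (B : Set ℕ) (n : ℕ) : ℕ :=
  ((range n).filter (fun p => p.Prime ∧ (2 * n - p).Prime ∧ (p ∈ B ∨ 2 * n - p ∈ B))).card

open Classical in
/-- At most `η π(y)` of the primes `p ≤ y` lie in `B`. -/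
def Sparse (B : Set ℕ) (η : ℝ) (y : ℕ) : Prop :=
  (((Icc 1 y).filter (fun p => p.Prime ∧ p ∈ B)).card : ℝ) ≤ η * Nat.primeCounting y

/-- The twin prime constant `C₂ = ∏_{p > 2} (1 - 1/(p-1)²)` (the factors lie in `(0, 1)`, so the
infinite product is the infimum of the finite ones). -/
noncomputable def twinConst : ℝ :=
  ⨅ z : ℕ, ∏ p ∈ (range z).filter (fun p => p.Prime ∧ 2 < p), (1 - 1 / ((p : ℝ) - 1) ^ 2)

/-- `kappa = C₂ e^{-γ}`, with Euler's constant `γ`. -/
noncomputable def kappa : ℝ := twinConst * Real.exp (-Real.eulerMascheroniConstant)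

lemma twinConst_eq : twinConst = Robust.C2 := by
  unfold twinConst Robust.C2
  congr 1
  funext z
  unfold Pool.Agent.Lib.MP_7b7e48_nt.twinPartial
  refine Finset.prod_congr ?_ fun _ _ => rfl
  ext p
  simp only [Finset.mem_filter, Nat.mem_primesBelow, Finset.mem_range]
  tauto

lemma kappa_eq : kappa = Robust.kap := by
  unfold kappa Robust.kap
  rw [twinConst_eq]

/-- Robust Goldbach, uniformly in the proportion of deleted primes. -/
theorem result : ∀ t : ℝ, 0 < t → t ≤ 1 → ∀ ε : ℝ, 0 < ε → ∀ A : ℝ, 0 < A →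
    ∃ η₀ : ℝ, 0 < η₀ ∧ ∃ X₀ : ℕ, ∀ η : ℝ, 0 < η → η ≤ η₀ →
      (∀ X : ℕ, X₀ ≤ X → ∀ B : Set ℕ, (∀ y : ℕ, X ≤ y ^ 2 → y ≤ 2 * X → Sparse B η y) →
        (({n : ℕ | 1 ≤ n ∧ n ≤ X ∧ t * rep n ≤ hit B n}.ncard : ℕ) : ℝ) ≤
          max (Real.exp (-Real.exp ((t * kappa - ε) / η))) ((Real.log X) ^ (-A)) * X) ∧
      (∃ B : Set ℕ, ∀ X : ℕ, X₀ ≤ X →
        (Real.log X) ^ (-A) ≤ Real.exp (-Real.exp ((t * kappa + ε) / η)) →
          (∀ y : ℕ, X ≤ y ^ 2 → Sparse B η y) ∧
          Real.exp (-Real.exp ((t * kappa + ε) / η)) * X ≤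
            (({n : ℕ | 1 ≤ n ∧ n ≤ X ∧ 0 < rep n ∧ t * rep n ≤ hit B n}.ncard : ℕ) : ℝ)) := by
  classical
  intro t ht0 ht1 ε hε A hA
  obtain ⟨η₁, hη₁, X₁, h1⟩ := upper_final t ht0 ht1 ε hε A hA
  obtain ⟨η₂, hη₂, X₂, h2⟩ := lower_uni t ht0 ht1 ε hε A hA
  refine ⟨min η₁ η₂, lt_min hη₁ hη₂, max (max X₁ X₂) 3, fun η hη hηη => ⟨fun X hX B hB => ?_, ?_⟩⟩
  · have h3 := h1 η hη (hηη.trans (min_le_left _ _)) X
      ((le_max_left _ _).trans ((le_max_left _ _).trans hX)) B
      (fun y hy hy2 => by have := hB y hy hy2; unfold Sparse at this; unfold SpAt; convert this)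
    rw [kappa_eq]
    refine le_trans (le_of_eq ?_) h3
    rw [← Set.ncard_coe_finset]
    congr 2
    ext n
    simp only [Set.mem_ofPred_eq, Finset.coe_filter, Finset.mem_Icc]
    constructor
    · rintro ⟨h4, h5, h6⟩; exact ⟨⟨h4, h5⟩, h6⟩
    · rintro ⟨⟨h4, h5⟩, h6⟩; exact ⟨h4, h5, h6⟩
  · obtain ⟨B, hB⟩ := h2 η hη (hηη.trans (min_le_right _ _))
    refine ⟨B, fun X hX hXA => ?_⟩
    have hX3 : (3 : ℕ) ≤ X := (le_max_right _ _).trans hX
    have hlog : 0 < Real.log X := Real.log_pos (by exact_mod_cast (by omega : 1 < X))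
    obtain ⟨h3, h4⟩ := hB X ((le_max_right _ _).trans ((le_max_left _ _).trans hX)) (by
      rw [kappa_eq, Real.rpow_neg hlog.le, Real.exp_neg] at hXA
      exact (inv_le_inv₀ (Real.rpow_pos_of_pos hlog A) (Real.exp_pos _)).mp hXA)
    refine ⟨fun y hy => by have := h3 y hy; unfold SpAt at this; unfold Sparse; convert this, ?_⟩
    rw [kappa_eq]
    refine h4.trans (le_of_eq ?_)
    rw [← Set.ncard_coe_finset]
    congr 2
    ext n
    simp only [Set.mem_ofPred_eq, Finset.coe_filter, Finset.mem_Icc]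
    constructor
    · rintro ⟨⟨h4, h5⟩, h6, h7⟩; exact ⟨h4, h5, h6, h7⟩
    · rintro ⟨h4, h5, h6, h7⟩; exact ⟨⟨h4, h5⟩, h6, h7⟩

end Pool.Agent.Results.MP_61161c_nt.RobustGoldbach
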